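import Pool.Agent.Q206.Hyp.Sanity

/-!
# No real hypersurface of a two-plane Grassmannian has `ξ` in a nullity distribution

Let `m ≥ 3`. For no real hypersurface of `G₂(ℂ^{m+2})` or of `SU(2,m)/S(U(2)×U(m))` does the
structure vector field `ξ = -J N` belong to a `κ`-, `(κ, μ)`- or `(κ, μ, ν)`-nullity distribution.
In fact at no point of a hypersurface is there a map `B` of the tangent space with
`R(X, Y) ξ = η(Y) B X - η(X) B Y` for all tangent vectors `X`, `Y`.

The ambient spaces, hypersurfaces and their induced data are defined in `Pool.Agent.Q206.Hyp.Defs`.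
-/

namespace Pool.Agent.Results.MP_5c1318_gt.NoNullityDistribution

open Pool.Agent.Q206.Hyp

/-- `ξ` belongs to the `(κ, μ, ν)`-nullity distribution: at each point `u` and for all tangent
vectors (represented by vectors `X`, `Y` of the parameter space)
`R(X, Y) ξ = κ [η(Y) X - η(X) Y] + μ [η(Y) A X - η(X) A Y] + ν [η(Y) φ A X - η(X) φ A Y]`. -/
def IsNullity {s : Space} {m : ℕ} (M : Hypersurface s m) (κ μ ν : Rn m → ℝ) : Prop :=
  ∀ u ∈ M.U, ∀ X Y : Rn m, M.R X Y M.ξ u =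
    κ u • (M.η u Y • M.d u X - M.η u X • M.d u Y)
      + μ u • (M.η u Y • M.A u X - M.η u X • M.A u Y)
      + ν u • (M.η u Y • M.φ u (M.A u X) - M.η u X • M.φ u (M.A u Y))

/-- Let `m ≥ 3`, and let `M` be a real hypersurface of `G₂(ℂ^{m+2})` (`s = .compact`) or of
`SU(2,m)/S(U(2)×U(m))` (`s = .noncompact`). Then `ξ` belongs to no `κ`-nullity distribution, to no
`(κ, μ)`-nullity distribution and to no `(κ, μ, ν)`-nullity distribution; moreover, at every point
`u` and for every map `B`, the identity `R(X, Y) ξ = η(Y) B X - η(X) B Y` fails for some `X`, `Y`. -/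
theorem result {m : ℕ} (hm : 3 ≤ m) (s : Space) (M : Hypersurface s m) :
    (¬ ∃ κ : Rn m → ℝ, IsNullity M κ 0 0) ∧
    (¬ ∃ κ μ : Rn m → ℝ, IsNullity M κ μ 0) ∧
    (¬ ∃ κ μ ν : Rn m → ℝ, IsNullity M κ μ ν) ∧
    ∀ u ∈ M.U, ∀ B : Rn m → Mat m, ∃ X Y : Rn m,
      M.R X Y M.ξ u ≠ M.η u Y • B X - M.η u X • B Y := by
  have main : ∀ u ∈ M.U, ∀ B : Rn m → Mat m, ∃ X Y : Rn m,
      M.R X Y M.ξ u ≠ M.η u Y • B X - M.η u X • B Y := by
    intro u hu B
    by_contra! h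
    exact M.no_field hm hu M.ξ_smooth M.ξ_tan M.ξ_orth (M.ξ_ne hu) (M.ξ_ker u)
      (M.ξ_tan u hu) (M.ξ_ker u) B h
  have main3 : ∀ κ μ ν : Rn m → ℝ, ¬ IsNullity M κ μ ν := by
    intro κ μ ν h
    obtain ⟨u, hu⟩ := M.connected.nonempty
    obtain ⟨X, Y, hXY⟩ := main u hu
      (fun X => κ u • M.d u X + μ u • M.A u X + ν u • M.φ u (M.A u X))
    apply hXY
    rw [h u hu X Y]
    module
  exact ⟨fun ⟨κ, h⟩ => main3 κ 0 0 h, fun ⟨κ, μ, h⟩ => main3 κ μ 0 h,
    fun ⟨κ, μ, ν, h⟩ => main3 κ μ ν h, main⟩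

end Pool.Agent.Results.MP_5c1318_gt.NoNullityDistribution
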